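import Pool.Agent.N384.MQ.Flat
import Pool.Agent.H82.BC.Main

set_option autoImplicit false

/-!
Short geometric progressions modulo products of few primes have small Fourier coefficients.
-/

namespace Pool.Agent.H46FF

open Finset Filter
open Pool.Agent.N384.MQ (Flat ev_log_pow)

/-- powers of the logarithm are smaller than powers -/
lemma ev_log_rpow (V : ℕ) {δ : ℝ} (hδ : 0 < δ) : ∃ q₀ : ℕ, ∀ q : ℕ, q₀ ≤ q → Real.log q ^ V ≤ (q : ℝ) ^ δ := by
  have h1 := (tendsto_natCast_atTop_atTop (R := ℝ)).eventually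
    ((isLittleO_log_rpow_rpow_atTop (V : ℝ) hδ).bound (show (0 : ℝ) < 1 by norm_num))
  obtain ⟨q₀, hq₀⟩ := eventually_atTop.1 h1
  refine ⟨q₀ + 1, fun q hq => ?_⟩
  have h2 := hq₀ q (by omega)
  have hq1 : (1 : ℝ) ≤ q := by exact_mod_cast (by omega : 1 ≤ q)
  have hl := Real.log_nonneg hq1
  rw [one_mul, Real.norm_of_nonneg (by positivity), Real.norm_of_nonneg (by positivity), Real.rpow_natCast] at h2
  exact h2

/-- geometric progressions `A g ^ i`, `i < N`, `N ≥ q ^ δ`, modulo a squarefree number `q` with at most `n` prime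
factors, where `g` has order at least `N` modulo every prime factor of `q` and `A` is coprime to `q` -/
theorem flat_geo (δ : ℝ) (hδ : 0 < δ) (n V : ℕ) : ∃ q₀ : ℕ, ∀ q : ℕ, q₀ ≤ q → ∀ [NeZero q], Squarefree q →
    q.primeFactors.card ≤ n → ∀ (A g N : ℕ), Nat.Coprime A q → (∀ p ∈ q.primeFactors, N ≤ orderOf (g : ZMod p)) →
    (q : ℝ) ^ δ ≤ N → Flat q (1 / Real.log q ^ V) (range N) (fun i => ((A * g ^ i : ℕ) : ZMod q)) := by
  obtain ⟨η, hη, q₁, h1⟩ := Pool.Agent.H82.BC.bc hδ n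
  obtain ⟨q₂, h2⟩ := ev_log_rpow V hη
  refine ⟨q₁ + q₂ + 3, fun q hq _ hsq hn A g N hA hord hN => ?_⟩
  intro h hh
  have hq0 : (0 : ℝ) < q := by exact_mod_cast (by omega : 0 < q)
  have hq3 : (3 : ℝ) ≤ q := by exact_mod_cast (by omega : 3 ≤ q)
  have hlog : 0 < Real.log q := Real.log_pos (by linarith)
  have hunit : IsUnit (A : ZMod q) := (ZMod.isUnit_iff_coprime A q).2 hA
  have hne : h * (A : ZMod q) ≠ 0 := by
    intro h0
    exact hh ((IsUnit.mul_left_eq_zero hunit).1 h0)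
  have h3 := h1 q q.primeFactors (fun p hp => Nat.prime_of_mem_primeFactors hp)
    (Nat.prod_primeFactors_of_squarefree hsq).symm hn (by omega) (g : ZMod q) N (fun p hp => by
      rw [Pool.Agent.H82.BC.pr_natCast (Nat.dvd_of_mem_primeFactors hp)]
      exact hord p hp) hN (h * (A : ZMod q)) hne
  have h4 : ∑ i ∈ range N, (ZMod.stdAddChar (h * ((A * g ^ i : ℕ) : ZMod q)) : ℂ) =
      ∑ i ∈ range N, ZMod.stdAddChar (N := q) (h * (A : ZMod q) * (g : ZMod q) ^ i) := by
    refine sum_congr rfl fun i _ => ?_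
    push_cast
    rw [mul_assoc]
  rw [h4, card_range]
  refine h3.trans ?_
  rw [mul_comm]
  apply mul_le_mul_of_nonneg_right _ (Nat.cast_nonneg _)
  rw [Real.rpow_neg hq0.le, ← one_div]
  exact one_div_le_one_div_of_le (by positivity) (h2 q (by omega))

end Pool.Agent.H46FF
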