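import Pool.Agent.N384.MQ.Main
import Pool.Agent.N213.GF.I

set_option autoImplicit false

/-!
Level of distribution for families of residues with small Fourier coefficients.
-/

namespace Pool.Agent.H46FF

open Finset Filter
open Pool.Agent.N384.MQ (Flat transferX scaleq)
open Pool.Agent.N625.DY (Cls ClsV Err)
open Pool.Agent.N213.GF (Heavy)

/-- the weighted sum of the errors over the moduli up to `D` -/
noncomputable def wsum (lam : ℕ → ℝ) (x : ℕ → ℕ) (D r : ℕ) : ℝ :=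
  ∑ d ∈ (Icc 1 D).filter (fun d => r.Coprime d), lam d * Err (x d) d r

/-- cutting the weights -/
lemma wsum_cut (lam : ℕ → ℝ) (x : ℕ → ℕ) {D D' : ℕ} (h : D ≤ D') (r : ℕ) :
    wsum (fun d => if d ≤ D then lam d else 0) x D' r = wsum lam x D r := by
  unfold wsum
  symm
  have h1 : (Icc 1 D).filter (fun d => r.Coprime d) ⊆ (Icc 1 D').filter (fun d => r.Coprime d) := by
    intro d hd
    rw [mem_filter, mem_Icc] at hd ⊢
    exact ⟨⟨hd.1.1, hd.1.2.trans h⟩, hd.2⟩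
  rw [← sum_subset h1]
  · refine sum_congr rfl fun d hd => ?_
    rw [mem_filter, mem_Icc] at hd
    beta_reduce
    rw [if_pos hd.1.2]
  · intro d hd hd'
    rw [mem_filter, mem_Icc] at hd hd'
    beta_reduce
    rw [if_neg (fun h2 => hd' ⟨⟨hd.1.1, h2⟩, hd.2⟩), zero_mul]

/-- the parameters -/
structure Par where
  L : ℕ
  lam : Fin L → ℕ → ℝ
  x : Fin L → ℕ → ℕ
  k : ℕ

/-- the conclusion for one residue -/
def Lvl (M : ℕ) (a U : ℕ) (ε : ℝ) (lam : ℕ → ℝ) (x : ℕ → ℕ) (r : ℕ) : Prop :=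
  (∀ z : ℕ, (z : ℝ) ≤ M * Real.log M ^ a → |wsum lam (fun _ => z) ⌊(M : ℝ) ^ (1 - ε)⌋₊ r| ≤ M / Real.log M ^ U) ∧
  |wsum lam x ⌊(M : ℝ) ^ (1 - ε)⌋₊ r| ≤ M / Real.log M ^ U

open Classical in
theorem flat_level (κ : ℤ) (hκ : κ ≠ 0) (a T U W : ℕ) (ε : ℝ) (hε : 0 < ε) (hε1 : ε ≤ 1) :
    ∃ V M₀ : ℕ, ∀ M : ℕ, M₀ ≤ M → ∀ [NeZero M] (ι : Type) (s : Finset ι) (y : ι → ZMod M),
      Flat M (1 / Real.log M ^ V) s y → ∀ c : ℤ, |(c : ℝ)| ≤ M * Real.log M ^ a →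
      ∀ L : ℕ, (L : ℝ) ≤ Real.log M ^ T → ∀ lam : Fin L → ℕ → ℝ,
      (∀ l d, |lam l d| ≤ (Real.log M * d.divisors.card) ^ T) →
      ∀ x : Fin L → ℕ → ℕ, (∀ l d, (x l d : ℝ) ≤ M * Real.log M ^ a) →
        ((s.filter fun i => ¬ ∀ r : ℤ, |(r : ℝ) - (c + κ * ((y i).val : ℕ))| ≤ Real.log M ^ W → 0 < r →
          ∀ l, Lvl M a U ε (lam l) (x l) r.toNat).card : ℝ) ≤ s.card / Real.log M ^ U := by
  obtain ⟨V, k₀, h0⟩ := transferX (Θ := Par) (a + 1) κ hκ U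
    (fun k θ => θ.k = k ∧ (θ.L : ℝ) ≤ (k : ℝ) ^ T ∧
      (∀ l q, |θ.lam l q| ≤ (k : ℝ) ^ T * (q.divisors.card : ℝ) ^ T) ∧ ∀ l q, θ.x l q ≤ 1 * 2 ^ k)
    (fun θ z => ∀ y : ℤ, |y - z| ≤ (θ.k : ℤ) ^ W → 0 < y → ∀ l, Heavy 2 1 (U + (a + 1)) θ.k ε (θ.lam l) (θ.x l) y.toNat)
    (fun C hC => by
      obtain ⟨k₁, h1⟩ := Pool.Agent.N213.GF.cls_heavy_near hC.toCls 1 T W (U + (a + 1)) ε hε
      refine ⟨k₁ + 1, fun k hk θ hθ p hp c hc => ?_⟩
      obtain ⟨g1, g2, g3, g4⟩ := hθ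
      subst g1
      refine (h1 θ.k (by omega) p hp c (by push_cast; rw [one_mul]; exact hc) θ.L g2 θ.lam g3 θ.x g4).trans ?_
      have hk1 : (1 : ℝ) ≤ θ.k := by exact_mod_cast (by omega : 1 ≤ θ.k)
      exact one_div_le_one_div_of_le (by positivity) (pow_le_pow_right₀ hk1 (by omega)))
  obtain ⟨q₀, h1⟩ := scaleq a V k₀
  refine ⟨V + 1, q₀ + 1, fun M hM _ ι s y hf c hc L hL lam hlam x hx => ?_⟩
  obtain ⟨hL1, k, hk, g1, g2, g3, g4, g5, g6⟩ := h1 M (by omega)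
  have hM0 : (0 : ℝ) < M := by exact_mod_cast (by omega : 0 < M)
  have hM1 : (1 : ℝ) ≤ M := by exact_mod_cast (by omega : 1 ≤ M)
  have hL0 : 0 < Real.log M := by linarith
  have hk0 : (0 : ℝ) < k := by linarith
  have hfl : ⌊(M : ℝ) ^ (1 - ε)⌋₊ ≤ ⌊((2 ^ k : ℕ) : ℝ) ^ (1 - ε)⌋₊ := by
    apply Nat.floor_mono
    apply Real.rpow_le_rpow hM0.le _ (by linarith)
    exact_mod_cast g1
  obtain ⟨lam', hlam'⟩ : ∃ lam' : Fin L → ℕ → ℝ, lam' = fun l d => if d ≤ ⌊(M : ℝ) ^ (1 - ε)⌋₊ then lam l d else 0 :=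
    ⟨_, rfl⟩
  have h2 := h0 k hk ⟨L, lam', x, k⟩ ⟨rfl, hL.trans (pow_le_pow_left₀ hL0.le g4 T), fun l q => by
      rw [hlam']
      show |if q ≤ ⌊(M : ℝ) ^ (1 - ε)⌋₊ then lam l q else 0| ≤ _
      split_ifs
      · refine (hlam l q).trans ?_
        rw [mul_pow]
        exact mul_le_mul_of_nonneg_right (pow_le_pow_left₀ hL0.le g4 T) (by positivity)
      · rw [abs_zero]
        positivity, fun l q => by
      rw [one_mul]
      have h3 := (hx l q).trans g2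
      exact_mod_cast h3⟩ M g1 g3 ι s y (hf.mono g6) c (by
      have : |(c : ℝ)| ≤ (2 : ℝ) ^ k := hc.trans g2
      exact_mod_cast this)
  have hbig : ((2 ^ k : ℕ) : ℝ) / (k : ℝ) ^ (U + (a + 1)) ≤ M / Real.log M ^ U := by
    push_cast
    rw [div_le_div_iff₀ (by positivity) (by positivity)]
    calc (2 : ℝ) ^ k * Real.log M ^ U ≤ ((k : ℝ) ^ (a + 1) * M) * (k : ℝ) ^ U :=
          mul_le_mul g3 (pow_le_pow_left₀ hL0.le g4 U) (by positivity) (by positivity)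
      _ = M * (k : ℝ) ^ (U + (a + 1)) := by rw [pow_add]; ring
  refine le_trans ?_ (h2.trans ?_)
  · rw [Nat.cast_le]
    apply card_le_card
    intro i hi
    rw [mem_filter] at hi ⊢
    refine ⟨hi.1, fun hcon => hi.2 fun r hr hr0 l => ?_⟩
    have h4 := hcon r (by
      have h5 : |(r : ℝ) - (c + κ * ((y i).val : ℕ))| ≤ (k : ℝ) ^ W :=
        hr.trans (pow_le_pow_left₀ hL0.le g4 W)
      exact_mod_cast h5) hr0 l
    obtain ⟨h5, h6⟩ := h4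
    refine ⟨fun z hz => ?_, ?_⟩
    · have hz' : z ≤ 1 * 2 ^ k := by
        rw [one_mul]
        have := hz.trans g2
        exact_mod_cast this
      have h7 := h5 z hz'
      have h8 : wsum (lam' l) (fun _ => z) ⌊((2 ^ k : ℕ) : ℝ) ^ (1 - ε)⌋₊ r.toNat =
          wsum (lam l) (fun _ => z) ⌊(M : ℝ) ^ (1 - ε)⌋₊ r.toNat := by
        rw [hlam']
        exact wsum_cut (lam l) (fun _ => z) hfl r.toNat
      rw [← h8]
      exact h7.trans hbig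
    · have h8 : wsum (lam' l) (x l) ⌊((2 ^ k : ℕ) : ℝ) ^ (1 - ε)⌋₊ r.toNat =
          wsum (lam l) (x l) ⌊(M : ℝ) ^ (1 - ε)⌋₊ r.toNat := by
        rw [hlam']
        exact wsum_cut (lam l) (x l) hfl r.toNat
      rw [← h8]
      exact h6.trans hbig
  · rw [mul_one_div]
    apply div_le_div_of_nonneg_left (Nat.cast_nonneg _) (by positivity)
    exact pow_le_pow_left₀ hL0.le g4 U

end Pool.Agent.H46FF
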